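import Pool.Agent.H47.NC.Final2

set_option autoImplicit false

/-!
# Faithful circuit covers: locally near-constant weights plus arbitrary admissible weights
-/

namespace Pool.Agent.Results.MP_48d738_co.Absorption

open Finset

/-- The edge `e` crosses the vertex set `X`: it has an end in `X` and an end outside `X`. The
edge-cut `δ(X)` consists of the edges of `G` that cross `X`. -/
def Crosses {V : Type} (X : Finset V) (e : Sym2 V) : Prop := (∃ x ∈ e, x ∈ X) ∧ ∃ y ∈ e, y ∉ X

/-- `(G, w)` has a faithful circuit cover: there is a finite family of circuits (cycles of `G`)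
such that every edge `e` of `G` lies in exactly `w e` members. -/
def HasFaithfulCover {V : Type} [DecidableEq V] (G : SimpleGraph V) (w : Sym2 V → ℕ) : Prop :=
  ∃ (n : ℕ) (c : Fin n → Σ v : V, G.Walk v v),
    (∀ i, (c i).2.IsCycle) ∧
    ∀ e ∈ G.edgeSet, (Finset.univ.filter (fun i => e ∈ (c i).2.edges)).card = w e

/-- `w` is admissible: `2 w(e) ≤ w(T)` for every edge-cut `T` and every `e ∈ T`. -/
def Admissible {V : Type} [Fintype V] [DecidableEq V] (G : SimpleGraph V) [DecidableRel G.Adj]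
    (w : Sym2 V → ℕ) : Prop :=
  ∀ (X : Finset V) (x y : V), x ∈ X → y ∉ X → G.Adj x y →
    2 * w s(x, y) ≤
      ∑ p ∈ (Finset.univ : Finset (V × V)).filter
          (fun p => p.1 ∈ X ∧ p.2 ∉ X ∧ G.Adj p.1 p.2), w s(p.1, p.2)

/-- Some two edges crossing `X` form a 2-edge-cut of the graph of all edges of positive weight. -/
def HasTwoCut {V : Type} (G : SimpleGraph V) (w : Sym2 V → ℕ) (X : Finset V) : Prop :=
  ∃ f g : Sym2 V, f ≠ g ∧ Crosses X f ∧ Crosses X g ∧
    ∃ Y : Finset V, ∀ h, (h ∈ G.edgeSet ∧ w h ≠ 0 ∧ Crosses Y h) ↔ (h = f ∨ h = g)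

open scoped Classical in
/-- **Absorption.**  Let `w` be an admissible weight with values in `4ℤ` on the edges of a finite
graph `G`, let `β` be an admissible integer weight, `s` the number of edges with `β > 0`, and `r` a
non-negative integer function with `w ≥ β + 32 r`.  Suppose that every edge `e` with `w(e) > 0`
has a set `H` of edges of `G` with `r(f) ≥ r(e)` and `72 r(f) ≥ w(e) - β(e) + 32 r(e) + 4 s` for
`f ∈ H`, and `|T ∩ H| ≥ 3` for every edge-cut `T` of `G` which contains `e` or meets `H`; cuts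
that contain a 2-edge-cut of the graph of the edges of positive weight are exempt.
Then `(G, w)` has a faithful circuit cover. -/
theorem result (V : Type) [Fintype V] [DecidableEq V] (G : SimpleGraph V) [DecidableRel G.Adj]
    (w β r : Sym2 V → ℕ) (hadm : Admissible G w) (hβ : Admissible G β)
    (hr : ∀ e ∈ G.edgeSet, 4 ∣ w e ∧ β e + 32 * r e ≤ w e)
    (h : ∀ e ∈ G.edgeSet, w e ≠ 0 → ∃ H : Finset (Sym2 V),
      (∀ f ∈ H, f ∈ G.edgeSet ∧ r e ≤ r f ∧
        w e + 32 * r e + 4 * ((Finset.univ : Finset (Sym2 V)).filter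
          (fun g => g ∈ G.edgeSet ∧ β g ≠ 0)).card ≤ 72 * r f + β e) ∧
      ∀ X : Finset V, ¬ HasTwoCut G w X → (Crosses X e ∨ ∃ f ∈ H, Crosses X f) →
        3 ≤ (H.filter (fun f => Crosses X f)).card) :
    HasFaithfulCover G w := by
  classical
  apply Pool.Agent.H47.NC.cover_of_cov G w
  let a := Pool.Agent.H47.NC.ea G w
  let b := Pool.Agent.H47.NC.eb G w
  have hle : ∀ e ∈ G.edgeSet, β e ≤ w e := fun e he => by
    have := (hr e he).2
    omega
  have hcr : ∀ (X : Finset V) (e : Pool.Agent.H47.NC.Ed G w),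
      Pool.Agent.H47.FC.Crs a b X e ↔ Crosses X e.1 :=
    fun X e => Pool.Agent.H47.NC.crs_iff G w X e
  refine Pool.Agent.H47.NC.absorb a b (fun e => w e.1) (fun e => β e.1) (fun e => r e.1)
    (fun e => (hr e.1 e.2.1).1) (fun X e he => Pool.Agent.H47.NC.adm_mult2 G w β hβ hle X e he)
    (fun e => (hr e.1 e.2.1).2)
    (fun e f hY => Pool.Agent.H47.NC.pair_eq G w hadm e f hY) ?_
  intro e _
  obtain ⟨H, h1, h2⟩ := h e.1 e.2.1 e.2.2
  let H' : Finset (Pool.Agent.H47.NC.Ed G w) := univ.filter (fun f => f.1 ∈ H)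
  have hcardβ := Pool.Agent.H47.NC.card_pos_edges G w β hle
  have hHw : ∀ f ∈ H, w f ≠ 0 := by
    intro f hf h0
    have h3 := (h1 f hf).2.2
    have h4 := (hr f (h1 f hf).1).2
    have h5 := hle e.1 e.2.1
    have h6 := e.2.2
    have h7 : 0 < ((Finset.univ : Finset (Sym2 V)).filter
          (fun g => g ∈ G.edgeSet ∧ β g ≠ 0)).card := by
      apply card_pos.2
      exact ⟨e.1, mem_filter.2 ⟨mem_univ _, e.2.1, by omega⟩⟩
    omega
  have hcard : ∀ X : Finset V, (H'.filter (fun f => Pool.Agent.H47.FC.Crs a b X f)).card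
      = (H.filter (fun f => Crosses X f)).card := by
    intro X
    apply card_bij (fun f _ => f.1)
    · intro f hf
      rw [mem_filter] at hf ⊢
      exact ⟨(mem_filter.1 hf.1).2, (hcr X f).1 hf.2⟩
    · intro f _ g _ hfg
      exact Subtype.ext hfg
    · intro f hf
      rw [mem_filter] at hf
      refine ⟨⟨f, (h1 f hf.1).1, hHw f hf.1⟩, ?_, rfl⟩
      rw [mem_filter, hcr]
      exact ⟨mem_filter.2 ⟨mem_univ _, hf.1⟩, hf.2⟩
  refine ⟨H', ?_, ?_, ?_⟩
  · intro X hX heX
    have h3 := h2 X (Pool.Agent.H47.NC.noPair_iff G w X hX) (Or.inl ((hcr X e).1 heX))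
    rw [← hcard X] at h3
    obtain ⟨f, hf⟩ := card_pos.1 (lt_of_lt_of_le (by decide : 0 < 3) h3)
    exact ⟨f, (mem_filter.1 hf).1, (mem_filter.1 hf).2⟩
  · rintro X hX ⟨f, hf, hfX⟩
    have h3 := h2 X (Pool.Agent.H47.NC.noPair_iff G w X hX)
      (Or.inr ⟨f.1, (mem_filter.1 hf).2, (hcr X f).1 hfX⟩)
    rw [← hcard X] at h3
    exact h3
  · intro f hf
    have h3 := (h1 f.1 (mem_filter.1 hf).2).2
    refine ⟨h3.1, ?_⟩
    rw [hcardβ]
    have h4 := h3.2
    omega

end Pool.Agent.Results.MP_48d738_co.Absorption
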