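import Pool.Agent.H47.NC.Final
import Pool.Agent.H47.CL.Closure

set_option autoImplicit false

/-!
# A universal multiplier for sums of graphs of bounded tree-depth
-/

namespace Pool.Agent.Results.MP_48d738_co.BoundedPieces

open Finset

/-- `(G, w)` has a faithful circuit cover: there is a finite family of circuits (cycles of `G`)
such that every edge `e` of `G` lies in exactly `w e` members. -/
def HasFaithfulCover {V : Type} [DecidableEq V] (G : SimpleGraph V) (w : Sym2 V → ℕ) : Prop :=
  ∃ (n : ℕ) (c : Fin n → Σ v : V, G.Walk v v),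
    (∀ i, (c i).2.IsCycle) ∧
    ∀ e ∈ G.edgeSet, (Finset.univ.filter (fun i => e ∈ (c i).2.edges)).card = w e

/-- `w` is admissible: `2 w(e) ≤ w(T)` for every edge-cut `T` and every `e ∈ T`. -/
def Admissible {V : Type} [Fintype V] [DecidableEq V] (G : SimpleGraph V) [DecidableRel G.Adj]
    (w : Sym2 V → ℕ) : Prop :=
  ∀ (X : Finset V) (x y : V), x ∈ X → y ∉ X → G.Adj x y →
    2 * w s(x, y) ≤
      ∑ p ∈ (Finset.univ : Finset (V × V)).filter
          (fun p => p.1 ∈ X ∧ p.2 ∉ X ∧ G.Adj p.1 p.2), w s(p.1, p.2)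

/-- `G` has tree-depth at most `h`: there is a rooted forest on the vertex set (with parent map
`par` and depths `dep v < h`, the roots having depth `0`) such that of the two ends of any edge of
`G` one is an ancestor of the other in the forest. -/
def TreeDepthLE {V : Type} (G : SimpleGraph V) (h : ℕ) : Prop :=
  ∃ (par : V → V) (dep : V → ℕ), (∀ v, dep v < h) ∧ (∀ v, dep v ≠ 0 → dep (par v) + 1 = dep v) ∧
    ∀ u v, G.Adj u v → (dep u < dep v ∧ par^[dep v - dep u] v = u) ∨
      (dep v < dep u ∧ par^[dep u - dep v] u = v)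

/-- The part `G[A]` with all pairs of distinct vertices of `A ∩ B` made adjacent (the vertices
outside `A` are kept as isolated vertices). -/
def part {V : Type} (G : SimpleGraph V) (A B : Set V) : SimpleGraph V where
  Adj u v := u ≠ v ∧ u ∈ A ∧ v ∈ A ∧ (G.Adj u v ∨ (u ∈ B ∧ v ∈ B))
  symm := ⟨fun _ _ h => ⟨h.1.symm, h.2.2.1, h.2.1, h.2.2.2.imp (fun h => h.symm) (fun h => ⟨h.2, h.1⟩)⟩⟩
  loopless := ⟨fun _ h => h.1 rfl⟩

/-- The class of graphs obtained from graphs of tree-depth at most `h` by sums of order at most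
three: `G` belongs to it if `G` has tree-depth at most `h`, or if `V = A ∪ B` with
`|A ∩ B| ≤ 3`, no edge of `G` joins `A \ B` to `B \ A`, and both `G[A]` and `G[B]`, with `A ∩ B`
made complete, belong to it. -/
inductive Built (h : ℕ) {V : Type} : SimpleGraph V → Prop
  | base (G : SimpleGraph V) : TreeDepthLE G h → Built h G
  | sum (G : SimpleGraph V) (A B : Set V) : A ∪ B = Set.univ → (A ∩ B).encard ≤ 3 →
      (∀ u v, G.Adj u v → (u ∈ A ∧ v ∈ A) ∨ (u ∈ B ∧ v ∈ B)) →
      Built h (part G A B) → Built h (part G B A) → Built h G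

/-- **A universal multiplier for sums of graphs of bounded tree-depth.**  For every `h` there is a
positive integer `k` such that for every finite graph `G` obtained from graphs of tree-depth at
most `h` by sums of order at most three and every admissible weight `w` on the edges of `G` with
values in `kℤ` the pair `(G, w)` has a faithful circuit cover. -/
theorem result : ∀ h : ℕ, ∃ k : ℕ, 0 < k ∧
    ∀ (V : Type) [Fintype V] [DecidableEq V] (G : SimpleGraph V) [DecidableRel G.Adj]
      (w : Sym2 V → ℕ), Built h G → (∀ e ∈ G.edgeSet, k ∣ w e) → Admissible G w →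
      HasFaithfulCover G w := by
  intro h
  obtain ⟨k, hk, H⟩ := Pool.Agent.H47.CL.good_of_built h
  refine ⟨k, hk, ?_⟩
  intro V _ _ G _ w hb hkw hadm
  classical
  have hb' : Pool.Agent.H47.CL.Built h G := by
    clear hadm hkw
    induction hb with
    | base G hG => exact Pool.Agent.H47.CL.Built.base G hG
    | sum G A B h1 h2 h3 _ _ ih1 ih2 =>
      exact Pool.Agent.H47.CL.Built.sum G A B h1 h2 h3 ih1 ih2
  apply Pool.Agent.H47.NC.cover_of_cov G w
  have hm : ∀ e : Pool.Agent.H47.NC.Ed G w, k * (w e.1 / k) = w e.1 :=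
    fun e => Nat.mul_div_cancel' (hkw e.1 e.2.1)
  obtain ⟨J, hJ, D, hD1, hD2⟩ := H V G hb' (Pool.Agent.H47.NC.Ed G w) (Pool.Agent.H47.NC.ea G w)
    (Pool.Agent.H47.NC.eb G w) (fun e => Or.inr (Pool.Agent.H47.NC.adj_ea_eb G w e))
    (fun e => w e.1 / k) (by
      intro X e he
      have h4 := Pool.Agent.H47.NC.adm_mult G w hadm X e he
      have h5 : k * (2 * (w e.1 / k)) ≤ k * ∑ f ∈ univ.filter (fun f : Pool.Agent.H47.NC.Ed G w =>
          Pool.Agent.H47.FC.Crs (Pool.Agent.H47.NC.ea G w) (Pool.Agent.H47.NC.eb G w) X f),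
          w f.1 / k := by
        rw [mul_sum]
        have h6 : ∀ f : Pool.Agent.H47.NC.Ed G w, k * (w f.1 / k) = w f.1 := hm
        rw [sum_congr rfl (fun f _ => h6 f)]
        have := hm e
        calc k * (2 * (w e.1 / k)) = 2 * (k * (w e.1 / k)) := by ring
          _ = 2 * w e.1 := by rw [this]
          _ ≤ _ := h4
      exact Nat.le_of_mul_le_mul_left h5 hk)
  refine ⟨J, hJ, D, hD1, ?_⟩
  intro e
  rw [hD2 e]
  exact hm e

end Pool.Agent.Results.MP_48d738_co.BoundedPieces
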