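import Pool.Agent.H47.NC.Final

set_option autoImplicit false

/-!
# Faithful circuit covers under a fourfold cut condition
-/

namespace Pool.Agent.Results.MP_48d738_co.FourfoldCut

open Finset

/-- The edge `e` crosses the vertex set `X`: it has an end in `X` and an end outside `X`. The
edge-cut `δ(X)` consists of the edges of `G` that cross `X`. -/
def Crosses {V : Type} (X : Finset V) (e : Sym2 V) : Prop := (∃ x ∈ e, x ∈ X) ∧ ∃ y ∈ e, y ∉ X

/-- `(G, w)` has a faithful circuit cover: there is a finite family of circuits (cycles of `G`)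
such that every edge `e` of `G` lies in exactly `w e` members. -/
def HasFaithfulCover {V : Type} [DecidableEq V] (G : SimpleGraph V) (w : Sym2 V → ℕ) : Prop :=
  ∃ (n : ℕ) (c : Fin n → Σ v : V, G.Walk v v),
    (∀ i, (c i).2.IsCycle) ∧
    ∀ e ∈ G.edgeSet, (Finset.univ.filter (fun i => e ∈ (c i).2.edges)).card = w e

/-- `w` is admissible: `2 w(e) ≤ w(T)` for every edge-cut `T` and every `e ∈ T`. -/
def Admissible {V : Type} [Fintype V] [DecidableEq V] (G : SimpleGraph V) [DecidableRel G.Adj]
    (w : Sym2 V → ℕ) : Prop :=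
  ∀ (X : Finset V) (x y : V), x ∈ X → y ∉ X → G.Adj x y →
    2 * w s(x, y) ≤
      ∑ p ∈ (Finset.univ : Finset (V × V)).filter
          (fun p => p.1 ∈ X ∧ p.2 ∉ X ∧ G.Adj p.1 p.2), w s(p.1, p.2)

/-- Some two edges crossing `X` form a 2-edge-cut of the graph of all edges of positive weight. -/
def HasTwoCut {V : Type} (G : SimpleGraph V) (w : Sym2 V → ℕ) (X : Finset V) : Prop :=
  ∃ f g : Sym2 V, f ≠ g ∧ Crosses X f ∧ Crosses X g ∧
    ∃ Y : Finset V, ∀ h, (h ∈ G.edgeSet ∧ w h ≠ 0 ∧ Crosses Y h) ↔ (h = f ∨ h = g)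

open scoped Classical in
/-- **Fourfold cut condition with a free part.**  Let `w` be an admissible weight on the edges of a
finite graph `G` and `r` an integer function with `0 ≤ 2 r ≤ w` and `w - 2 r` divisible by `4`.
Suppose that every edge `e` of positive weight has a set `H` of edges of `G` such that
`r(T ∩ H) ≥ w(e) + 2 r(e)` for every edge-cut `T` of `G` which contains `e` or meets `H`; cuts that
contain a 2-edge-cut of the graph of the edges of positive weight are exempt.
Then `(G, w)` has a faithful circuit cover. -/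
theorem result (V : Type) [Fintype V] [DecidableEq V] (G : SimpleGraph V) [DecidableRel G.Adj]
    (w r : Sym2 V → ℕ) (hadm : Admissible G w)
    (hr : ∀ e ∈ G.edgeSet, 2 * r e ≤ w e ∧ 4 ∣ w e - 2 * r e)
    (h : ∀ e ∈ G.edgeSet, w e ≠ 0 → ∃ H : Finset (Sym2 V), (∀ f ∈ H, f ∈ G.edgeSet) ∧
      ∀ X : Finset V, ¬ HasTwoCut G w X → (Crosses X e ∨ ∃ f ∈ H, Crosses X f) →
        w e + 2 * r e ≤ ∑ f ∈ H.filter (fun f => Crosses X f), r f) :
    HasFaithfulCover G w := by
  classical
  apply Pool.Agent.H47.NC.cover_of_cov G w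
  let a := Pool.Agent.H47.NC.ea G w
  let b := Pool.Agent.H47.NC.eb G w
  have hcr : ∀ (X : Finset V) (e : Pool.Agent.H47.NC.Ed G w),
      Pool.Agent.H47.FC.Crs a b X e ↔ Crosses X e.1 :=
    fun X e => Pool.Agent.H47.NC.crs_iff G w X e
  have hsum : ∀ e : Pool.Agent.H47.NC.Ed G w, 2 * r e.1 + 4 * ((w e.1 - 2 * r e.1) / 4) = w e.1 := by
    intro e
    have hre := hr e.1 e.2.1
    have h6 := Nat.div_mul_cancel hre.2
    omega
  have hcov := Pool.Agent.H47.NC.four_gen2 a b (fun e => r e.1) (fun e => (w e.1 - 2 * r e.1) / 4)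
    (by
      intro e f hY
      have h1 := Pool.Agent.H47.NC.pair_eq G w hadm e f hY
      show 2 * r e.1 + 4 * ((w e.1 - 2 * r e.1) / 4) = 2 * r f.1 + 4 * ((w f.1 - 2 * r f.1) / 4)
      rw [hsum, hsum, h1]) (by
    intro e _
    obtain ⟨H, h1, h2⟩ := h e.1 e.2.1 e.2.2
    have hre := hr e.1 e.2.1
    let H' : Finset (Pool.Agent.H47.NC.Ed G w) := univ.filter (fun f => f.1 ∈ H)
    have key : ∀ X : Finset V, Pool.Agent.H47.NC.NoPair a b X → (Crosses X e.1 ∨ ∃ f ∈ H, Crosses X f) →
        4 * (r e.1 + (w e.1 - 2 * r e.1) / 4)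
          ≤ ∑ f ∈ H'.filter (fun f => Pool.Agent.H47.FC.Crs a b X f), r f.1 := by
      intro X hX hXe
      have h4 := h2 X (Pool.Agent.H47.NC.noPair_iff G w X hX) hXe
      have h5 : ∑ f ∈ H.filter (fun f => Crosses X f), r f
          = ∑ f ∈ H'.filter (fun f => Pool.Agent.H47.FC.Crs a b X f), r f.1 := by
        symm
        rw [← sum_filter_ne_zero (s := H.filter (fun f => Crosses X f)),
          ← sum_filter_ne_zero (s := H'.filter (fun f => Pool.Agent.H47.FC.Crs a b X f))]
        refine sum_bij (fun f _ => f.1) ?_ ?_ ?_ ?_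
        · intro g hg
          rw [mem_filter, mem_filter] at hg ⊢
          exact ⟨⟨(mem_filter.1 hg.1.1).2, (hcr X g).1 hg.1.2⟩, hg.2⟩
        · intro g _ g' _ hgg
          exact Subtype.ext hgg
        · intro g hg
          rw [mem_filter, mem_filter] at hg
          have hwg : w g ≠ 0 := by
            have := hr g (h1 g hg.1.1)
            have := hg.2
            omega
          refine ⟨⟨g, h1 g hg.1.1, hwg⟩, ?_, rfl⟩
          rw [mem_filter, mem_filter, hcr]
          exact ⟨⟨mem_filter.2 ⟨mem_univ _, hg.1.1⟩, hg.1.2⟩, hg.2⟩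
        · intro g _; rfl
      rw [← h5]
      refine le_trans ?_ h4
      have := hre.1
      have h6 := Nat.div_mul_cancel hre.2
      omega
    refine ⟨H', ?_, ?_⟩
    · intro X hX heX
      have h3 := key X hX (Or.inl ((hcr X e).1 heX))
      by_contra hcon
      push Not at hcon
      have h4 : H'.filter (fun f => Pool.Agent.H47.FC.Crs a b X f) = ∅ := by
        rw [filter_eq_empty_iff]
        intro f hf
        exact hcon f hf
      rw [h4, sum_empty] at h3
      have := e.2.2
      have := hsum e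
      omega
    · rintro X hX ⟨f, hf, hfX⟩
      exact key X hX (Or.inr ⟨f.1, (mem_filter.1 hf).2, (hcr X f).1 hfX⟩))
  have h1 : (fun e : Pool.Agent.H47.NC.Ed G w => 2 * r e.1 + 4 * ((w e.1 - 2 * r e.1) / 4))
      = fun e => w e.1 := by
    funext e
    exact hsum e
  rw [h1] at hcov
  exact hcov

end Pool.Agent.Results.MP_48d738_co.FourfoldCut
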