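import Mathlib

set_option autoImplicit false

/-!
# No odd multiplier is universal for faithful circuit covers
-/

namespace Pool.Agent.Results.MP_48d738_co.OddMultipliersFail

/-- `UniversalMultiplier k`: for every finite graph `G` and every eulerian, admissible weight
`w` on its edges all of whose values are multiples of `k`, there is a finite family of circuits
of `G` covering each edge `e` exactly `w e` times.  (Eulerian: the total weight at every vertex is
even, equivalently the weight of every edge-cut is even.  Admissible: for every edge-cut `T` and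
every `e ∈ T`, `2 w(e) ≤ w(T)`.) -/
def UniversalMultiplier (k : ℕ) : Prop :=
  ∀ (V : Type) [Fintype V] [DecidableEq V] (G : SimpleGraph V) [DecidableRel G.Adj]
    (w : Sym2 V → ℕ),
    (∀ e ∈ G.edgeSet, k ∣ w e) →
    (∀ v : V, Even (∑ u ∈ G.neighborFinset v, w s(v, u))) →
    (∀ (X : Finset V) (x y : V), x ∈ X → y ∉ X → G.Adj x y →
      2 * w s(x, y) ≤
        ∑ p ∈ (Finset.univ : Finset (V × V)).filter
            (fun p => p.1 ∈ X ∧ p.2 ∉ X ∧ G.Adj p.1 p.2), w s(p.1, p.2)) →
    ∃ (n : ℕ) (c : Fin n → Σ v : V, G.Walk v v),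
      (∀ i, (c i).2.IsCycle) ∧
      ∀ e ∈ G.edgeSet,
        (Finset.univ.filter (fun i => e ∈ (c i).2.edges)).card = w e

/-- The three neighbours of a vertex of the Petersen graph: outer cycle `0..4`, inner vertices
`5..9`, spokes `i ~ i+5`.  The spoke neighbour is listed first. -/
def nb : Fin 10 → Fin 10 × Fin 10 × Fin 10
  | 0 => (5, 1, 4)
  | 1 => (6, 2, 0)
  | 2 => (7, 3, 1)
  | 3 => (8, 4, 2)
  | 4 => (9, 0, 3)
  | 5 => (0, 7, 8)
  | 6 => (1, 8, 9)
  | 7 => (2, 9, 5)
  | 8 => (3, 5, 6)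
  | 9 => (4, 6, 7)

/-- The Petersen graph. -/
def pet : SimpleGraph (Fin 10) where
  Adj a b := b = (nb a).1 ∨ b = (nb a).2.1 ∨ b = (nb a).2.2
  symm := ⟨by decide⟩
  loopless := ⟨by decide⟩

instance : DecidableRel pet.Adj := fun a b => by unfold pet; infer_instance

/-- spokes -/
def spoke : Fin 10 → Fin 10 → Bool := fun a b => decide (b = (nb a).1)

lemma spoke_symm : ∀ a b, spoke a b = spoke b a := by decide

/-- the weight: `2k` on the spokes, `k` elsewhere -/
def wt (k : ℕ) : Sym2 (Fin 10) → ℕ :=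
  Sym2.lift ⟨fun a b => if spoke a b then 2 * k else k, fun a b => by
    simp only [spoke_symm a b]⟩

lemma wt_mk (k : ℕ) (a b : Fin 10) : wt k s(a, b) = if spoke a b then 2 * k else k := rfl

lemma wt_spoke (k : ℕ) (a : Fin 10) : wt k s(a, (nb a).1) = 2 * k := by
  simp [wt_mk, spoke]

lemma wt_a (k : ℕ) : ∀ a : Fin 10, wt k s(a, (nb a).2.1) = k := by
  intro a
  have : spoke a (nb a).2.1 = false := by revert a; decide
  simp [wt_mk, this]

lemma wt_b (k : ℕ) : ∀ a : Fin 10, wt k s(a, (nb a).2.2) = k := by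
  intro a
  have : spoke a (nb a).2.2 = false := by revert a; decide
  simp [wt_mk, this]

lemma nb_distinct : ∀ a : Fin 10, (nb a).1 ≠ (nb a).2.1 ∧ (nb a).1 ≠ (nb a).2.2 ∧
    (nb a).2.1 ≠ (nb a).2.2 := by decide

lemma adj_iff (a b : Fin 10) : pet.Adj a b ↔ b = (nb a).1 ∨ b = (nb a).2.1 ∨ b = (nb a).2.2 :=
  Iff.rfl

lemma nbr (a : Fin 10) : pet.neighborFinset a = {(nb a).1, (nb a).2.1, (nb a).2.2} := by
  ext b
  simp [SimpleGraph.mem_neighborFinset, adj_iff]

/-- cut weight of a 2-colouring, as a Boolean computation -/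
def cutw (f : Fin 10 → Bool) : ℕ :=
  ((List.finRange 10).map (fun a =>
    (if f a && !f (nb a).1 then 2 else 0) + (if f a && !f (nb a).2.1 then 1 else 0)
      + (if f a && !f (nb a).2.2 then 1 else 0))).sum

lemma cutw_ge_aux : ∀ b0 b1 b2 b3 b4 b5 b6 b7 b8 b9 : Bool,
    (b0 && b1 && b2 && b3 && b4 && b5 && b6 && b7 && b8 && b9) = true ∨
    (b0 || b1 || b2 || b3 || b4 || b5 || b6 || b7 || b8 || b9) = false ∨
    4 ≤ cutw ![b0, b1, b2, b3, b4, b5, b6, b7, b8, b9] := by
  decide +kernel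

lemma cutw_ge (f : Fin 10 → Bool) (x y : Fin 10) (hx : f x = true) (hy : f y = false) :
    4 ≤ cutw f := by
  have hf : f = ![f 0, f 1, f 2, f 3, f 4, f 5, f 6, f 7, f 8, f 9] := by
    funext i
    fin_cases i <;> rfl
  rcases cutw_ge_aux (f 0) (f 1) (f 2) (f 3) (f 4) (f 5) (f 6) (f 7) (f 8) (f 9) with h | h | h
  · exfalso
    simp only [Bool.and_eq_true] at h
    obtain ⟨⟨⟨⟨⟨⟨⟨⟨⟨h0, h1⟩, h2⟩, h3⟩, h4⟩, h5⟩, h6⟩, h7⟩, h8⟩, h9⟩ := h
    have hall : ∀ i, f i = true := by
      intro i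
      fin_cases i
      exacts [h0, h1, h2, h3, h4, h5, h6, h7, h8, h9]
    rw [hall y] at hy
    exact Bool.noConfusion hy
  · exfalso
    simp only [Bool.or_eq_false_iff] at h
    obtain ⟨⟨⟨⟨⟨⟨⟨⟨⟨h0, h1⟩, h2⟩, h3⟩, h4⟩, h5⟩, h6⟩, h7⟩, h8⟩, h9⟩ := h
    have hall : ∀ i, f i = false := by
      intro i
      fin_cases i
      exacts [h0, h1, h2, h3, h4, h5, h6, h7, h8, h9]
    rw [hall x] at hx
    exact Bool.noConfusion hx
  · rw [hf]
    exact h

lemma cut_sum (k : ℕ) (X : Finset (Fin 10)) :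
    ∑ p ∈ (Finset.univ : Finset (Fin 10 × Fin 10)).filter
      (fun p => p.1 ∈ X ∧ p.2 ∉ X ∧ pet.Adj p.1 p.2), wt k s(p.1, p.2)
      = k * cutw (fun i => decide (i ∈ X)) := by
  rw [Finset.sum_filter, Fintype.sum_prod_type]
  have h : ∀ a : Fin 10, ∑ b : Fin 10,
      (if a ∈ X ∧ b ∉ X ∧ pet.Adj a b then wt k s(a, b) else 0) =
      k * ((if (decide (a ∈ X)) && !(decide ((nb a).1 ∈ X)) then 2 else 0)
        + (if (decide (a ∈ X)) && !(decide ((nb a).2.1 ∈ X)) then 1 else 0)
        + (if (decide (a ∈ X)) && !(decide ((nb a).2.2 ∈ X)) then 1 else 0)) := by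
    intro a
    obtain ⟨d1, d2, d3⟩ := nb_distinct a
    have h1 : ∑ b : Fin 10, (if a ∈ X ∧ b ∉ X ∧ pet.Adj a b then wt k s(a, b) else 0)
        = ∑ b ∈ ({(nb a).1, (nb a).2.1, (nb a).2.2} : Finset (Fin 10)),
          (if a ∈ X ∧ b ∉ X then wt k s(a, b) else 0) := by
      rw [← nbr]
      symm
      apply Finset.sum_subset_zero_on_sdiff (Finset.subset_univ _)
      · intro b hb
        rw [Finset.mem_sdiff, SimpleGraph.mem_neighborFinset] at hb
        simp [hb.2]
      · intro b hb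
        rw [SimpleGraph.mem_neighborFinset] at hb
        simp [hb]
    rw [h1, Finset.sum_insert (by simp [d1, d2]), Finset.sum_insert (by simp [d3]),
      Finset.sum_singleton, wt_spoke, wt_a, wt_b]
    by_cases ha : a ∈ X <;> by_cases hb1 : (nb a).1 ∈ X <;> by_cases hb2 : (nb a).2.1 ∈ X <;>
      by_cases hb3 : (nb a).2.2 ∈ X <;> simp [ha, hb1, hb2, hb3] <;> ring
  rw [Finset.sum_congr rfl (fun a _ => h a), ← Finset.mul_sum]
  congr 1

/-- every circuit uses 0 or 2 of the edges at a vertex with three neighbours -/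
lemma deg_cycle {V : Type} [DecidableEq V] {G : SimpleGraph V} {v : V} {p : G.Walk v v}
    (hp : p.IsCycle) (x a b c : V) (hab : a ≠ b) (hac : a ≠ c) (hbc : b ≠ c)
    (hN : ∀ y, G.Adj x y → y = a ∨ y = b ∨ y = c) :
    (if s(x, a) ∈ p.edges then 1 else 0) + (if s(x, b) ∈ p.edges then 1 else 0)
      + (if s(x, c) ∈ p.edges then 1 else 0) = 0 ∨
    (if s(x, a) ∈ p.edges then 1 else 0) + (if s(x, b) ∈ p.edges then 1 else 0)
      + (if s(x, c) ∈ p.edges then 1 else 0) = 2 := by
  by_cases hx : x ∈ p.support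
  · right
    have h2 := hp.ncard_neighborSet_toSubgraph_eq_two hx
    have h3 : p.toSubgraph.neighborSet x
        = ((({a, b, c} : Finset V).filter (fun y => s(x, y) ∈ p.edges) : Finset V) : Set V) := by
      ext y
      rw [SimpleGraph.Subgraph.mem_neighborSet, SimpleGraph.Walk.adj_toSubgraph_iff_mem_edges]
      simp only [Finset.coe_filter, Finset.mem_insert, Finset.mem_singleton, Set.mem_ofPred_eq]
      constructor
      · intro h
        exact ⟨hN y (p.adj_of_mem_edges h), h⟩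
      · exact fun h => h.2
    rw [h3, Set.ncard_coe_finset, Finset.card_filter, Finset.sum_insert (by simp [hab, hac]),
      Finset.sum_insert (by simp [hbc]), Finset.sum_singleton] at h2
    rw [← h2]
    ring
  · left
    have h : ∀ y, s(x, y) ∉ p.edges := fun y hy => hx (p.fst_mem_support_of_mem_edges hy)
    simp [h]

/-- **Main result**: no odd multiplier is universal. -/
theorem result (k : ℕ) (hk : Odd k) : ¬ UniversalMultiplier k := by
  intro H
  have hdvd : ∀ e ∈ pet.edgeSet, k ∣ wt k e := by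
    intro e
    induction e using Sym2.ind with
    | _ a b =>
      intro _
      rw [wt_mk]
      split_ifs
      · exact Dvd.intro_left 2 rfl
      · exact dvd_rfl
  have heul : ∀ v : Fin 10, Even (∑ u ∈ pet.neighborFinset v, wt k s(v, u)) := by
    intro v
    obtain ⟨d1, d2, d3⟩ := nb_distinct v
    rw [nbr, Finset.sum_insert (by simp [d1, d2]), Finset.sum_insert (by simp [d3]),
      Finset.sum_singleton, wt_spoke, wt_a, wt_b]
    exact ⟨2 * k, by ring⟩
  have hadm : ∀ (X : Finset (Fin 10)) (x y : Fin 10), x ∈ X → y ∉ X → pet.Adj x y →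
      2 * wt k s(x, y) ≤ ∑ p ∈ (Finset.univ : Finset (Fin 10 × Fin 10)).filter
        (fun p => p.1 ∈ X ∧ p.2 ∉ X ∧ pet.Adj p.1 p.2), wt k s(p.1, p.2) := by
    intro X x y hx hy _
    rw [cut_sum]
    have h4 := cutw_ge (fun i => decide (i ∈ X)) x y (by simpa using hx) (by simpa using hy)
    have h5 : wt k s(x, y) ≤ 2 * k := by
      rw [wt_mk]
      split_ifs <;> omega
    calc 2 * wt k s(x, y) ≤ k * 4 := by omega
      _ ≤ _ := Nat.mul_le_mul_left k h4
  obtain ⟨n, c, hc, hcov⟩ := H (Fin 10) pet (wt k) hdvd heul hadm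
  -- indicator of an edge in the `i`-th circuit
  let I : Fin n → Fin 10 → Fin 10 → ℕ := fun i a b => if s(a, b) ∈ (c i).2.edges then 1 else 0
  have Isymm : ∀ i a b, I i a b = I i b a := by
    intro i a b
    simp only [I]
    rw [Sym2.eq_swap]
  have hsum : ∀ a b, pet.Adj a b → ∑ i, I i a b = wt k s(a, b) := by
    intro a b hab
    rw [← hcov s(a, b) (by simpa using hab), Finset.card_filter]
  have hdeg : ∀ i a, I i a (nb a).1 + I i a (nb a).2.1 + I i a (nb a).2.2 = 0 ∨
      I i a (nb a).1 + I i a (nb a).2.1 + I i a (nb a).2.2 = 2 := by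
    intro i a
    obtain ⟨d1, d2, d3⟩ := nb_distinct a
    exact deg_cycle (hc i) a _ _ _ d1 d2 d3 (fun y hy => hy)
  have hI1 : ∀ i a b, I i a b ≤ 1 := by
    intro i a b
    simp only [I]
    split_ifs <;> omega
  -- tightness of the vertex stars
  have htight : ∀ a i, I i a (nb a).2.1 + I i a (nb a).2.2 = I i a (nb a).1 := by
    intro a
    have hle : ∀ i ∈ (Finset.univ : Finset (Fin n)),
        I i a (nb a).1 ≤ I i a (nb a).2.1 + I i a (nb a).2.2 := by
      intro i _
      have h1 := hdeg i a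
      have h2 := hI1 i a (nb a).1
      omega
    have heq : ∑ i, I i a (nb a).1 = ∑ i, (I i a (nb a).2.1 + I i a (nb a).2.2) := by
      rw [Finset.sum_add_distrib, hsum _ _ (Or.inl rfl), hsum _ _ (Or.inr (Or.inl rfl)),
        hsum _ _ (Or.inr (Or.inr rfl)), wt_spoke, wt_a, wt_b]
      ring
    intro i
    exact ((Finset.sum_eq_sum_iff_of_le hle).1 heq i (Finset.mem_univ i)).symm
  -- every circuit uses exactly four spokes
  have hfour : ∀ i, I i 0 5 + I i 1 6 + I i 2 7 + I i 3 8 + I i 4 9 = 4 := by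
    intro i
    have t0 : I i 0 1 + I i 0 4 = I i 0 5 := htight 0 i
    have t1 : I i 1 2 + I i 1 0 = I i 1 6 := htight 1 i
    have t2 : I i 2 3 + I i 2 1 = I i 2 7 := htight 2 i
    have t3 : I i 3 4 + I i 3 2 = I i 3 8 := htight 3 i
    have t4 : I i 4 0 + I i 4 3 = I i 4 9 := htight 4 i
    have t5 : I i 5 7 + I i 5 8 = I i 5 0 := htight 5 i
    have t6 : I i 6 8 + I i 6 9 = I i 6 1 := htight 6 i
    have t7 : I i 7 9 + I i 7 5 = I i 7 2 := htight 7 i
    have t8 : I i 8 5 + I i 8 6 = I i 8 3 := htight 8 i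
    have t9 : I i 9 6 + I i 9 7 = I i 9 4 := htight 9 i
    rw [Isymm i 1 0] at t1
    rw [Isymm i 2 1] at t2
    rw [Isymm i 3 2] at t3
    rw [Isymm i 4 3, Isymm i 4 0] at t4
    rw [Isymm i 5 0] at t5
    rw [Isymm i 6 1] at t6
    rw [Isymm i 7 5, Isymm i 7 2] at t7
    rw [Isymm i 8 5, Isymm i 8 6, Isymm i 8 3] at t8
    rw [Isymm i 9 6, Isymm i 9 7, Isymm i 9 4] at t9
    -- some edge is used
    have hne : ∃ a, I i a (nb a).1 + I i a (nb a).2.1 + I i a (nb a).2.2 ≠ 0 := by
      have hnil : (c i).2.edges ≠ [] := by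
        intro h
        have h3 := (hc i).three_le_length
        rw [← SimpleGraph.Walk.length_edges, h] at h3
        simp at h3
      obtain ⟨e, he⟩ := List.exists_mem_of_ne_nil _ hnil
      induction e using Sym2.ind with
      | _ a b =>
        have hab : pet.Adj a b := (c i).2.adj_of_mem_edges he
        refine ⟨a, ?_⟩
        have hI : I i a b = 1 := by simp [I, he]
        rcases hab with h | h | h <;> rw [h] at hI <;> omega
    have hpos : I i 0 5 + I i 1 6 + I i 2 7 + I i 3 8 + I i 4 9 ≠ 0 := by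
      intro h0
      obtain ⟨a, ha⟩ := hne
      have hta := htight a i
      have hsa : I i a (nb a).1 = 0 := by
        have h' : I i 0 5 = 0 ∧ I i 1 6 = 0 ∧ I i 2 7 = 0 ∧ I i 3 8 = 0 ∧ I i 4 9 = 0 := by omega
        obtain ⟨z0, z1, z2, z3, z4⟩ := h'
        fin_cases a
        · exact z0
        · exact z1
        · exact z2
        · exact z3
        · exact z4
        · exact (Isymm i 5 0).trans z0
        · exact (Isymm i 6 1).trans z1
        · exact (Isymm i 7 2).trans z2
        · exact (Isymm i 8 3).trans z3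
        · exact (Isymm i 9 4).trans z4
      omega
    have b0 := hI1 i 0 5
    have b1 := hI1 i 1 6
    have b2 := hI1 i 2 7
    have b3 := hI1 i 3 8
    have b4 := hI1 i 4 9
    have c0 : I i 0 1 = 0 ∨ I i 0 1 = 1 := by have := hI1 i 0 1; omega
    have c1 : I i 1 2 = 0 ∨ I i 1 2 = 1 := by have := hI1 i 1 2; omega
    have c2 : I i 2 3 = 0 ∨ I i 2 3 = 1 := by have := hI1 i 2 3; omega
    have c3 : I i 3 4 = 0 ∨ I i 3 4 = 1 := by have := hI1 i 3 4; omega
    have c4 : I i 0 4 = 0 ∨ I i 0 4 = 1 := by have := hI1 i 0 4; omega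
    clear_value I
    rcases c0 with c0 | c0 <;> rcases c1 with c1 | c1 <;> rcases c2 with c2 | c2 <;>
      rcases c3 with c3 | c3 <;> rcases c4 with c4 | c4 <;> omega
  -- count the spokes in two ways
  have hcount : ∑ i : Fin n, (I i 0 5 + I i 1 6 + I i 2 7 + I i 3 8 + I i 4 9) = 10 * k := by
    simp only [Finset.sum_add_distrib]
    rw [hsum 0 5 (by decide), hsum 1 6 (by decide), hsum 2 7 (by decide), hsum 3 8 (by decide),
      hsum 4 9 (by decide)]
    have e0 : wt k s(0, 5) = 2 * k := wt_spoke k 0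
    have e1 : wt k s(1, 6) = 2 * k := wt_spoke k 1
    have e2 : wt k s(2, 7) = 2 * k := wt_spoke k 2
    have e3 : wt k s(3, 8) = 2 * k := wt_spoke k 3
    have e4 : wt k s(4, 9) = 2 * k := wt_spoke k 4
    rw [e0, e1, e2, e3, e4]
    ring
  rw [Finset.sum_congr rfl (fun i _ => hfour i), Finset.sum_const, Finset.card_univ,
    Fintype.card_fin, smul_eq_mul] at hcount
  obtain ⟨m, hm⟩ := hk
  omega

end Pool.Agent.Results.MP_48d738_co.OddMultipliersFail
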